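import Pool.Agent.H35.FC.Stm

/-!
# The algebra of OneFactor

`A i`, `B j`, `N i j` are finite sets of words with `A* = N i j + A i C* B j` for all `i`, `j`. If
`(1 - c) / (1 - s)` is not a product of two polynomials which both involve `y`, then on one side the
commutative images of the completions without too many letters `y` are the same.
-/

set_option autoImplicit false

namespace Pool.Agent.H72.OF

open Finset
open Pool.Agent.H35.FC (IsCode Facts Tiles gf SGf)

section
variable {α : Type}

/-- The commutative image of a word. -/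
noncomputable def vec (w : List α) : α →₀ ℕ := (w.map (fun x => Finsupp.single x 1)).sum

theorem word_eq (w : List α) :
    (w.map (MvPolynomial.X : α → MvPolynomial α ℤ)).prod = MvPolynomial.monomial (vec w) 1 := by
  induction w with
  | nil => simp [vec]
  | cons x w ih =>
    rw [List.map_cons, List.prod_cons, ih]
    unfold vec
    rw [List.map_cons, List.sum_cons, MvPolynomial.X, MvPolynomial.monomial_mul, one_mul]

variable [DecidableEq α]

theorem vec_apply (w : List α) (y : α) : vec w y = w.count y := by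
  induction w with
  | nil => simp [vec]
  | cons x w ih =>
    have h : vec (x :: w) = Finsupp.single x 1 + vec w := by simp [vec]
    rw [h, Finsupp.add_apply, ih, List.count_cons, Finsupp.single_apply]
    by_cases hxy : x = y
    · subst hxy; simp [Nat.add_comm]
    · simp [hxy]

theorem coeff_gf (L : Finset (List α)) (m : α →₀ ℕ) :
    MvPolynomial.coeff m (gf L) = ((L.filter (fun w => vec w = m)).card : ℤ) := by
  unfold gf
  rw [MvPolynomial.coeff_sum, Finset.card_filter]
  push_cast
  refine Finset.sum_congr rfl fun w _ => ?_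
  rw [word_eq, MvPolynomial.coeff_monomial]

theorem coeff_gf_pos {L : Finset (List α)} {w : List α} (hw : w ∈ L) :
    0 < MvPolynomial.coeff (vec w) (gf L) := by
  rw [coeff_gf]
  have : 0 < (L.filter (fun v => vec v = vec w)).card :=
    Finset.card_pos.2 ⟨w, Finset.mem_filter.2 ⟨hw, rfl⟩⟩
  exact_mod_cast this

theorem exists_of_coeff {L : Finset (List α)} {m : α →₀ ℕ}
    (h : MvPolynomial.coeff m (gf L) ≠ 0) : ∃ w ∈ L, vec w = m := by
  rw [coeff_gf] at h
  have h1 : (L.filter (fun w => vec w = m)).card ≠ 0 := by exact_mod_cast h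
  obtain ⟨w, hw⟩ := Finset.card_pos.1 (Nat.pos_of_ne_zero h1)
  exact ⟨w, (Finset.mem_filter.1 hw).1, (Finset.mem_filter.1 hw).2⟩

theorem gf_ne_zero {L : Finset (List α)} (hL : L.Nonempty) : gf L ≠ 0 := by
  obtain ⟨w, hw⟩ := hL
  intro h
  have := coeff_gf_pos hw
  rw [h, MvPolynomial.coeff_zero] at this
  exact lt_irrefl _ this

omit [DecidableEq α] in
theorem le_degreeOf {p : MvPolynomial α ℤ} {m : α →₀ ℕ} (y : α)
    (h : MvPolynomial.coeff m p ≠ 0) : m y ≤ MvPolynomial.degreeOf y p := by
  exact MvPolynomial.monomial_le_degreeOf y (MvPolynomial.mem_support_iff.2 h)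

theorem degreeOf_gf_le {L : Finset (List α)} {y : α} {k : ℕ} (h : ∀ w ∈ L, w.count y ≤ k) :
    MvPolynomial.degreeOf y (gf L) ≤ k := by
  rw [MvPolynomial.degreeOf_le_iff]
  intro m hm
  obtain ⟨w, hw, rfl⟩ := exists_of_coeff (MvPolynomial.mem_support_iff.1 hm)
  rw [vec_apply]
  exact h w hw

theorem degreeOf_one_sub_gf {C : Finset (List α)} {y : α} {d : ℕ}
    (hd : ∀ c ∈ C, c.count y ≤ d) (hd' : ∃ c ∈ C, c.count y = d) (hd1 : 1 ≤ d) :
    MvPolynomial.degreeOf y (1 - gf C) = d := by
  apply le_antisymm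
  · refine (MvPolynomial.degreeOf_sub_le y _ _).trans ?_
    rw [max_le_iff]
    refine ⟨?_, degreeOf_gf_le hd⟩
    rw [MvPolynomial.degreeOf_one]
    exact Nat.zero_le d
  · obtain ⟨c, hc, hcd⟩ := hd'
    have h1 := coeff_gf_pos hc
    have hv : vec c ≠ 0 := by
      intro h
      have h2 := vec_apply c y
      rw [h, hcd] at h2
      simp at h2
      omega
    have h3 : MvPolynomial.coeff (vec c) (1 - gf C) ≠ 0 := by
      rw [MvPolynomial.coeff_sub, MvPolynomial.coeff_one, if_neg (fun h => hv h.symm)]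
      omega
    have h4 := le_degreeOf y h3
    rw [vec_apply, hcd] at h4
    exact h4

variable [Fintype α]

/-- `1 - s`. -/
noncomputable def os (α : Type) [Fintype α] : MvPolynomial α ℤ :=
  1 - ∑ x : α, (MvPolynomial.X x : MvPolynomial α ℤ)

theorem coeff_os (y : α) : MvPolynomial.coeff (Finsupp.single y 1) (os α) = -1 := by
  unfold os
  rw [MvPolynomial.coeff_sub, MvPolynomial.coeff_one, MvPolynomial.coeff_sum]
  have h1 : (0 : α →₀ ℕ) ≠ Finsupp.single y 1 := by
    intro h
    have := DFunLike.congr_fun h y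
    simp at this
  rw [if_neg h1, Finset.sum_eq_single y]
  · rw [MvPolynomial.coeff_X, if_pos rfl]
    norm_num
  · intro x _ hx
    rw [MvPolynomial.coeff_X, if_neg]
    intro h
    exact hx (Finsupp.single_left_injective one_ne_zero h)
  · intro h
    exact absurd (Finset.mem_univ y) h

theorem os_ne_zero (y : α) : os α ≠ 0 := by
  intro h
  have := coeff_os y
  rw [h, MvPolynomial.coeff_zero] at this
  norm_num at this

theorem degreeOf_os (y : α) : MvPolynomial.degreeOf y (os α) = 1 := by
  apply le_antisymm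
  · unfold os
    refine (MvPolynomial.degreeOf_sub_le y _ _).trans ?_
    rw [max_le_iff]
    refine ⟨by rw [MvPolynomial.degreeOf_one]; exact Nat.zero_le 1, ?_⟩
    refine (MvPolynomial.degreeOf_sum_le y _ _).trans ?_
    refine Finset.sup_le fun x _ => ?_
    rw [MvPolynomial.degreeOf_X]
    split_ifs <;> norm_num
  · have h : MvPolynomial.coeff (Finsupp.single y 1) (os α) ≠ 0 := by
      rw [coeff_os]; norm_num
    have := le_degreeOf y h
    simpa using this

/-- All letters evaluated at `1 / |α|`. -/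
noncomputable def ev (α : Type) [Fintype α] : MvPolynomial α ℤ →+* ℚ :=
  MvPolynomial.eval₂Hom (Int.castRingHom ℚ) (fun _ => 1 / (Fintype.card α : ℚ))

omit [DecidableEq α] in
theorem ev_word_pos (y : α) (w : List α) :
    0 < ev α (w.map (MvPolynomial.X : α → MvPolynomial α ℤ)).prod := by
  have hc : (0 : ℚ) < Fintype.card α := by
    have : 0 < Fintype.card α := Fintype.card_pos_iff.2 ⟨y⟩
    exact_mod_cast this
  induction w with
  | nil => simp
  | cons x w ih =>
    rw [List.map_cons, List.prod_cons, map_mul]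
    refine mul_pos ?_ ih
    simp only [ev, MvPolynomial.eval₂Hom_X']
    positivity

omit [DecidableEq α] in
theorem ev_gf_pos (y : α) {L : Finset (List α)} (hL : L.Nonempty) : 0 < ev α (gf L) := by
  unfold gf
  rw [map_sum]
  exact Finset.sum_pos (fun w _ => ev_word_pos y w) hL

/-- The substitution `y ↦ 1 - ∑ x ≠ y, x`. -/
noncomputable def sub (y : α) : MvPolynomial α ℤ →+* MvPolynomial α ℤ :=
  MvPolynomial.eval₂Hom MvPolynomial.C (fun x => if x = y then
    1 - ∑ z ∈ univ.erase y, (MvPolynomial.X z : MvPolynomial α ℤ) else MvPolynomial.X x)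

theorem sub_os (y : α) : sub y (os α) = 0 := by
  unfold os
  rw [map_sub, map_one, map_sum, ← Finset.add_sum_erase univ _ (Finset.mem_univ y)]
  have h1 : sub y (MvPolynomial.X y) =
      1 - ∑ z ∈ univ.erase y, (MvPolynomial.X z : MvPolynomial α ℤ) := by
    simp [sub]
  have h2 : ∑ x ∈ univ.erase y, sub y (MvPolynomial.X x) =
      ∑ z ∈ univ.erase y, (MvPolynomial.X z : MvPolynomial α ℤ) := by
    refine Finset.sum_congr rfl fun x hx => ?_
    have hxy : x ≠ y := Finset.ne_of_mem_erase hx
    simp [sub, hxy]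
  rw [h1, h2]
  ring

theorem ev_sub (y : α) (p : MvPolynomial α ℤ) : ev α (sub y p) = ev α p := by
  have hc : (Fintype.card α : ℚ) ≠ 0 := by
    have : 0 < Fintype.card α := Fintype.card_pos_iff.2 ⟨y⟩
    exact_mod_cast this.ne'
  have h : (ev α).comp (sub y) = ev α := by
    apply MvPolynomial.ringHom_ext
    · intro r
      simp [sub, ev]
    · intro x
      rw [RingHom.comp_apply]
      by_cases hx : x = y
      · subst hx
        have h1 : sub x (MvPolynomial.X x) =
            1 - ∑ z ∈ univ.erase x, (MvPolynomial.X z : MvPolynomial α ℤ) := by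
          simp [sub]
        have h2 : ∀ z : α, ev α (MvPolynomial.X z) = 1 / (Fintype.card α : ℚ) := by
          intro z
          simp [ev]
        rw [h1, map_sub, map_one, map_sum, h2]
        simp only [h2]
        rw [Finset.sum_const, Finset.card_erase_of_mem (Finset.mem_univ x), Finset.card_univ,
          nsmul_eq_mul, Nat.cast_sub (Fintype.card_pos_iff.2 ⟨x⟩)]
        field_simp
        simp
      · have h1 : sub y (MvPolynomial.X x) = MvPolynomial.X x := by
          simp [sub, hx]
        rw [h1]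
  exact DFunLike.congr_fun h p

theorem sub_of_degreeOf {y : α} {h : MvPolynomial α ℤ} (h0 : MvPolynomial.degreeOf y h = 0) :
    sub y h = h := by
  have hv : y ∉ h.vars := by
    rw [MvPolynomial.vars_def, Multiset.mem_toFinset]
    intro hm
    have := Multiset.count_pos.2 hm
    rw [← MvPolynomial.degreeOf_def] at this
    omega
  have := MvPolynomial.hom_congr_vars (f₁ := sub y) (f₂ := RingHom.id (MvPolynomial α ℤ))
    (p₁ := h) (p₂ := h) (by ext; simp [sub]) (by
      intro i hi _
      have : i ≠ y := fun e => hv (e ▸ hi)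
      simp [sub, this]) rfl
  simpa using this

omit [DecidableEq α] [Fintype α] in
/-- An irreducible factor which involves `y`. -/
theorem exists_prime (y : α) {Q : MvPolynomial α ℤ} (hQ : Q ≠ 0)
    (hd : 1 ≤ MvPolynomial.degreeOf y Q) :
    ∃ p : MvPolynomial α ℤ, Prime p ∧ p ∣ Q ∧ 1 ≤ MvPolynomial.degreeOf y p := by
  obtain ⟨f, hf, u, hu⟩ := UniqueFactorizationMonoid.exists_prime_factors Q hQ
  by_contra hcon
  push Not at hcon
  have hdvd : ∀ b ∈ f, b ∣ Q := fun b hb => (Multiset.dvd_prod hb).trans ⟨u, hu.symm⟩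
  have h0 : ∀ b ∈ f, MvPolynomial.degreeOf y b = 0 := fun b hb => by
    have := hcon b (hf b hb) (hdvd b hb)
    omega
  have hprod : ∀ g : Multiset (MvPolynomial α ℤ), (∀ b ∈ g, Prime b) →
      (∀ b ∈ g, MvPolynomial.degreeOf y b = 0) →
      g.prod ≠ 0 ∧ MvPolynomial.degreeOf y g.prod = 0 := by
    intro g
    induction g using Multiset.induction_on with
    | empty => intro _ _; simp
    | cons b g ih =>
      intro h1 h2
      obtain ⟨h3, h4⟩ := ih (fun c hc => h1 c (Multiset.mem_cons_of_mem hc))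
        (fun c hc => h2 c (Multiset.mem_cons_of_mem hc))
      have hb := (h1 b (Multiset.mem_cons_self b g)).ne_zero
      rw [Multiset.prod_cons]
      refine ⟨mul_ne_zero hb h3, ?_⟩
      rw [MvPolynomial.degreeOf_mul_eq hb h3, h4, h2 b (Multiset.mem_cons_self b g)]
  obtain ⟨h5, h6⟩ := hprod f hf h0
  have hu0 : (u : MvPolynomial α ℤ) ≠ 0 := u.ne_zero
  have hui : ((u⁻¹ : (MvPolynomial α ℤ)ˣ) : MvPolynomial α ℤ) ≠ 0 := (u⁻¹).ne_zero
  have h7 : MvPolynomial.degreeOf y (u : MvPolynomial α ℤ) = 0 := by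
    have h8 := MvPolynomial.degreeOf_mul_eq (n := y) hu0 hui
    rw [Units.mul_inv, MvPolynomial.degreeOf_one] at h8
    omega
  rw [← hu, MvPolynomial.degreeOf_mul_eq h5 hu0, h6, h7] at hd
  omega

/-- One side: all completions are divisible by the factor of degree `d - 1`. -/
theorem side (y : α) {d : ℕ} (hd2 : 2 ≤ d) {Q p k : MvPolynomial α ℤ} (hQ : Q = p * k)
    (hp0 : p ≠ 0) (hpd : MvPolynomial.degreeOf y p = d - 1)
    {ι : Type} (A : ι → Finset (List α)) (B : Finset (List α)) (N : ι → MvPolynomial α ℤ)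
    (hA : ∀ i, (A i).Nonempty) (hB : B.Nonempty) (hA1 : ∀ i, ∀ v ∈ A i, v.count y ≤ d - 1)
    (hGF : ∀ i, gf (A i) * gf B = Q * (1 - os α * N i)) (hdiv : ∀ i, p ∣ gf (A i)) :
    (∀ i i', gf (A i) = gf (A i')) ∧ ∀ i, ∃ v ∈ A i, v.count y = d - 1 := by
  have hh : ∀ i, ∃ h : MvPolynomial α ℤ, gf (A i) = p * h ∧ MvPolynomial.degreeOf y h = 0 := by
    intro i
    obtain ⟨h, hh⟩ := hdiv i
    have hne := gf_ne_zero (hA i)
    have hh0 : h ≠ 0 := by
      rintro rfl
      rw [mul_zero] at hh
      exact hne hh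
    refine ⟨h, hh, ?_⟩
    have h1 := degreeOf_gf_le (hA1 i)
    rw [hh, MvPolynomial.degreeOf_mul_eq hp0 hh0, hpd] at h1
    omega
  refine ⟨fun i i' => ?_, fun i => ?_⟩
  · obtain ⟨h, h1, h2⟩ := hh i
    obtain ⟨h', h1', h2'⟩ := hh i'
    have e1 : h * gf B = k * (1 - os α * N i) := by
      apply mul_left_cancel₀ hp0
      rw [← mul_assoc, ← h1, hGF i, hQ]
      ring
    have e2 : h' * gf B = k * (1 - os α * N i') := by
      apply mul_left_cancel₀ hp0
      rw [← mul_assoc, ← h1', hGF i', hQ]
      ring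
    have e3 : (h - h') * gf B = os α * (k * (N i' - N i)) := by
      linear_combination e1 - e2
    have e4 := congrArg (sub y) e3
    rw [map_mul, map_mul, sub_os, zero_mul, map_sub, sub_of_degreeOf h2,
      sub_of_degreeOf h2'] at e4
    have hB0 : sub y (gf B) ≠ 0 := by
      intro h0
      have h5 := ev_sub y (gf B)
      rw [h0, map_zero] at h5
      exact (ev_gf_pos y hB).ne h5
    have e5 : h - h' = 0 := (mul_eq_zero.1 e4).resolve_right hB0
    rw [h1, h1', sub_eq_zero.1 e5]
  · by_contra hcon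
    push Not at hcon
    have h3 : ∀ v ∈ A i, v.count y ≤ d - 2 := by
      intro v hv
      have h4 := hA1 i v hv
      have h5 := hcon v hv
      omega
    obtain ⟨h, h1, h2⟩ := hh i
    have hh0 : h ≠ 0 := by
      rintro rfl
      rw [mul_zero] at h1
      exact gf_ne_zero (hA i) h1
    have h6 := degreeOf_gf_le h3
    rw [h1, MvPolynomial.degreeOf_mul_eq hp0 hh0, hpd] at h6
    omega

end

/-- The commutative images are equal on one side. -/
theorem alg (hgf : SGf) {α : Type} [Fintype α] [DecidableEq α] (C : Finset (List α))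
    (hC : IsCode (C : Set (List α))) (y : α) (d : ℕ) (hd2 : 2 ≤ d)
    (hdle : ∀ w ∈ C, w.count y ≤ d) (hdex : ∃ w ∈ C, w.count y = d)
    (hI : ∀ F G : MvPolynomial α ℤ,
      1 - gf C = (1 - ∑ x : α, (MvPolynomial.X x : MvPolynomial α ℤ)) * (F * G) →
      MvPolynomial.degreeOf y F = 0 ∨ MvPolynomial.degreeOf y G = 0)
    {ι κ : Type} [Nonempty ι] [Nonempty κ] (A : ι → Finset (List α)) (B : κ → Finset (List α))
    (hT : ∀ i j, ∃ N : Finset (List α), Tiles (C : Set (List α)) (A i : Set (List α))
      (B j : Set (List α)) (N : Set (List α)))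
    (hA : ∀ i, (A i).Nonempty) (hB : ∀ j, (B j).Nonempty)
    (hA1 : ∀ i, ∀ v ∈ A i, v.count y ≤ d - 1) (hB1 : ∀ j, ∀ v ∈ B j, v.count y ≤ d - 1) :
    ((∀ i i', gf (A i) = gf (A i')) ∧ ∀ i, ∃ v ∈ A i, v.count y = d - 1) ∨
    ((∀ j j', gf (B j) = gf (B j')) ∧ ∀ j, ∃ v ∈ B j, v.count y = d - 1) := by
  choose N hN using hT
  have hos : (1 - ∑ x : α, (MvPolynomial.X x : MvPolynomial α ℤ)) = os α := rfl
  have hos0 : os α ≠ 0 := os_ne_zero y
  have hgf' : ∀ i j, 1 - gf C = os α * ((1 - gf C) * gf (N i j) + gf (A i) * gf (B j)) := by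
    intro i j
    rw [← hos]
    exact hgf α C (A i) (B j) (N i j) hC (hN i j)
  obtain ⟨i0⟩ := ‹Nonempty ι›
  obtain ⟨j0⟩ := ‹Nonempty κ›
  obtain ⟨Q, hQ⟩ : ∃ Q, Q = (1 - gf C) * gf (N i0 j0) + gf (A i0) * gf (B j0) := ⟨_, rfl⟩
  have hcQ : 1 - gf C = os α * Q := by rw [hQ]; exact hgf' i0 j0
  have hGF : ∀ i j, gf (A i) * gf (B j) = Q * (1 - os α * gf (N i j)) := by
    intro i j
    have h1 := hgf' i j
    rw [hcQ] at h1
    have h2 := mul_left_cancel₀ hos0 h1
    linear_combination -h2
  have hdeg1 : MvPolynomial.degreeOf y (1 - gf C) = d :=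
    degreeOf_one_sub_gf hdle hdex (by omega)
  have hQ0 : Q ≠ 0 := by
    intro h
    rw [hcQ, h, mul_zero] at hdeg1
    simp at hdeg1
    omega
  have hQd : MvPolynomial.degreeOf y Q = d - 1 := by
    rw [hcQ, MvPolynomial.degreeOf_mul_eq hos0 hQ0, degreeOf_os] at hdeg1
    omega
  obtain ⟨p, hp, ⟨k, hk⟩, hp1⟩ := exists_prime y hQ0 (by omega)
  have hk0 : k ≠ 0 := by
    rintro rfl
    rw [mul_zero] at hk
    exact hQ0 hk
  have hkd : MvPolynomial.degreeOf y k = 0 := by
    rcases hI p k (by rw [hos, ← hk]; exact hcQ) with h | h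
    · omega
    · exact h
  have hpd : MvPolynomial.degreeOf y p = d - 1 := by
    rw [hk, MvPolynomial.degreeOf_mul_eq hp.ne_zero hk0, hkd] at hQd
    omega
  by_cases hall : ∀ i, p ∣ gf (A i)
  · left
    exact side y hd2 hk hp.ne_zero hpd A (B j0) (fun i => gf (N i j0)) hA (hB j0) hA1
      (fun i => hGF i j0) hall
  · right
    push Not at hall
    obtain ⟨i1, hi1⟩ := hall
    refine side y hd2 hk hp.ne_zero hpd B (A i1) (fun j => gf (N i1 j)) hB (hA i1) hB1
      (fun j => by rw [mul_comm]; exact hGF i1 j) (fun j => ?_)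
    have h1 : p ∣ gf (A i1) * gf (B j) := by
      rw [hGF i1 j, hk]
      exact ⟨k * (1 - os α * gf (N i1 j)), by ring⟩
    exact (hp.dvd_or_dvd h1).resolve_left hi1

/-- Equal commutative images: the same number of words with `k` letters `y`. -/
theorem card_eq {α : Type} [DecidableEq α] {L M : Finset (List α)} (h : gf L = gf M) (y : α)
    (k : ℕ) : (L.filter (fun w => w.count y = k)).card =
      (M.filter (fun w => w.count y = k)).card := by
  have key : ∀ K : Finset (List α), ((K.filter (fun w => w.count y = k)).card : ℤ) =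
      ∑ m ∈ (gf K).support.filter (fun m => m y = k), MvPolynomial.coeff m (gf K) := by
    intro K
    have h1 : ∀ m ∈ (gf K).support.filter (fun m => m y = k), MvPolynomial.coeff m (gf K) =
        (((K.filter (fun w => w.count y = k)).filter (fun w => vec w = m)).card : ℤ) := by
      intro m hm
      rw [coeff_gf, Finset.filter_filter]
      congr 2
      refine Finset.filter_congr fun w _ => ?_
      constructor
      · rintro rfl
        refine ⟨?_, rfl⟩
        rw [← vec_apply]
        exact (Finset.mem_filter.1 hm).2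
      · exact fun h => h.2
    rw [Finset.sum_congr rfl h1]
    have h2 := Finset.card_eq_sum_card_fiberwise (f := vec)
      (s := K.filter (fun w => w.count y = k)) (t := (gf K).support.filter (fun m => m y = k))
      (fun w hw => by
        have hw' := Finset.mem_filter.1 hw
        refine Finset.mem_coe.2 (Finset.mem_filter.2 ⟨?_, ?_⟩)
        · rw [MvPolynomial.mem_support_iff]
          exact (coeff_gf_pos hw'.1).ne'
        · rw [vec_apply]
          exact hw'.2)
    rw [h2]
    push_cast
    rfl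
  have h3 := key L
  rw [h, ← key M] at h3
  exact_mod_cast h3

end Pool.Agent.H72.OF
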