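import Pool.Agent.H72.OF.Alg

/-!
# The algebra of MissingLetter
-/

set_option autoImplicit false

namespace Pool.Agent.H72.OF

open Finset
open Pool.Agent.H35.FC (IsCode Facts Tiles gf SGf)

/-- If `Q` divides all products `A i * B j` then it splits. -/
theorem split {R : Type} [CommRing R] [IsDomain R] [UniqueFactorizationMonoid R] {ι κ : Type}
    (Q : R) (hQ : Q ≠ 0) : ∀ (A : ι → R) (B : κ → R), (∀ i j, Q ∣ A i * B j) →
    ∃ F G : R, Q = F * G ∧ (∀ i, F ∣ A i) ∧ ∀ j, G ∣ B j := by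
  induction Q using UniqueFactorizationMonoid.induction_on_prime with
  | h₁ => exact absurd rfl hQ
  | h₂ x hx =>
    intro A B _
    exact ⟨x, 1, (mul_one x).symm, fun i => hx.dvd, fun j => one_dvd _⟩
  | h₃ a p ha hp ih =>
    intro A B h
    have h1 : ∀ i j, p ∣ A i * B j := fun i j => (Dvd.intro a rfl).trans (h i j)
    by_cases hall : ∀ i, p ∣ A i
    · choose A' hA' using hall
      obtain ⟨F, G, h2, h3, h4⟩ := ih ha A' B (fun i j => by
        have h5 := h i j
        rw [hA' i, mul_assoc] at h5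
        exact (mul_dvd_mul_iff_left hp.ne_zero).1 h5)
      refine ⟨p * F, G, by rw [h2, mul_assoc], fun i => ?_, h4⟩
      rw [hA' i]
      exact mul_dvd_mul_left p (h3 i)
    · push Not at hall
      obtain ⟨i0, hi0⟩ := hall
      have hB : ∀ j, p ∣ B j := fun j => (hp.dvd_or_dvd (h1 i0 j)).resolve_left hi0
      choose B' hB' using hB
      obtain ⟨F, G, h2, h3, h4⟩ := ih ha A B' (fun i j => by
        have h5 := h i j
        rw [hB' j, mul_left_comm] at h5
        exact (mul_dvd_mul_iff_left hp.ne_zero).1 h5)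
      refine ⟨F, p * G, by rw [h2, mul_left_comm], h3, fun j => ?_⟩
      rw [hB' j]
      exact mul_dvd_mul_left p (h4 j)

section
variable {α : Type} [DecidableEq α]

theorem exists_count (y : α) {k : ℕ} {L : Finset (List α)} (hL : L.Nonempty)
    (hle : ∀ v ∈ L, v.count y ≤ k) (hdeg : k ≤ MvPolynomial.degreeOf y (gf L)) :
    ∃ v ∈ L, v.count y = k := by
  by_contra hcon
  push Not at hcon
  obtain ⟨v0, hv0⟩ := hL
  have h0 := hle v0 hv0
  have h1 := hcon v0 hv0
  have h2 : ∀ v ∈ L, v.count y ≤ k - 1 := by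
    intro v hv
    have := hle v hv
    have := hcon v hv
    omega
  have h3 := degreeOf_gf_le h2
  omega

variable [Fintype α]

theorem ev_os (y : α) : ev α (os α) = 0 := by
  rw [← ev_sub y, sub_os, map_zero]

/-- One side, the letter `y` is missing in the other factor. -/
theorem side2 (y : α) {d : ℕ} {F G : MvPolynomial α ℤ} (hF0 : F ≠ 0) (hG0 : G ≠ 0)
    (hGd : MvPolynomial.degreeOf y G = d - 1) {ι : Type} (A : Finset (List α))
    (B : ι → Finset (List α)) (N : ι → MvPolynomial α ℤ)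
    (hB : ∀ i, (B i).Nonempty) (hB1 : ∀ i, ∀ v ∈ B i, v.count y ≤ d - 1)
    (hGF : ∀ i, gf A * gf (B i) = F * G * (1 - os α * N i)) (hFA : F ∣ gf A)
    (hdiv : ∀ i, G ∣ gf (B i)) :
    (∀ i i', gf (B i) = gf (B i')) ∧ ∀ i, ∃ v ∈ B i, v.count y = d - 1 := by
  obtain ⟨k, hk⟩ := hFA
  have hh : ∀ i, ∃ h : MvPolynomial α ℤ, gf (B i) = G * h ∧ h ≠ 0 ∧
      MvPolynomial.degreeOf y h = 0 := by
    intro i
    obtain ⟨h, hh⟩ := hdiv i
    have hne := gf_ne_zero (hB i)
    have hh0 : h ≠ 0 := by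
      rintro rfl
      rw [mul_zero] at hh
      exact hne hh
    refine ⟨h, hh, hh0, ?_⟩
    have h1 := degreeOf_gf_le (hB1 i)
    rw [hh, MvPolynomial.degreeOf_mul_eq hG0 hh0, hGd] at h1
    omega
  refine ⟨fun i i' => ?_, fun i => ?_⟩
  · obtain ⟨h, h1, -, h2⟩ := hh i
    obtain ⟨h', h1', -, h2'⟩ := hh i'
    have key : ∀ (t : MvPolynomial α ℤ) (j : ι), gf (B j) = G * t →
        MvPolynomial.degreeOf y t = 0 → sub y k * t = 1 := by
      intro t j ht ht0
      have e1 : k * t = 1 - os α * N j := by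
        apply mul_left_cancel₀ (mul_ne_zero hF0 hG0)
        rw [← hGF j, hk, ht]
        ring
      have e2 := congrArg (sub y) e1
      rw [map_mul, sub_of_degreeOf ht0, map_sub, map_one, map_mul, sub_os, zero_mul,
        sub_zero] at e2
      exact e2
    have e1 := key h i h1 h2
    have e2 := key h' i' h1' h2'
    have hk0 : sub y k ≠ 0 := by
      intro h0
      rw [h0, zero_mul] at e1
      exact zero_ne_one e1
    have e3 : h = h' := mul_left_cancel₀ hk0 (e1.trans e2.symm)
    rw [h1, h1', e3]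
  · obtain ⟨h, h1, h3, h2⟩ := hh i
    refine exists_count y (hB i) (hB1 i) ?_
    rw [h1, MvPolynomial.degreeOf_mul_eq hG0 h3, hGd]
    omega

end

/-- Some letter is missing in one factor of `(1 - c) / (1 - s)`: equal commutative images. -/
theorem alg2 (hgf : SGf) {α : Type} [Fintype α] [DecidableEq α] (C : Finset (List α))
    (hC : IsCode (C : Set (List α)))
    (hI : ∀ F G : MvPolynomial α ℤ,
      1 - gf C = (1 - ∑ x : α, (MvPolynomial.X x : MvPolynomial α ℤ)) * (F * G) →
      ∃ y, MvPolynomial.degreeOf y F = 0 ∨ MvPolynomial.degreeOf y G = 0)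
    (A B : List α → Finset (List α))
    (hT : ∀ g f, ∃ N : Finset (List α), Tiles (C : Set (List α)) (A g : Set (List α))
      (B f : Set (List α)) (N : Set (List α)))
    (d : α → ℕ) (hd1 : ∀ y, 1 ≤ d y) (hdle : ∀ y, ∀ w ∈ C, w.count y ≤ d y)
    (hdex : ∀ y, ∃ w ∈ C, w.count y = d y)
    (hA1 : ∀ y g, ∀ v ∈ A (g ++ [y]), v.count y ≤ d y - 1)
    (hB1 : ∀ y f, ∀ v ∈ B (y :: f), v.count y ≤ d y - 1) :
    ∃ y : α, ((∀ g g', gf (A (g ++ [y])) = gf (A (g' ++ [y]))) ∧
        ∀ g, ∃ v ∈ A (g ++ [y]), v.count y = d y - 1) ∨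
      ((∀ f f', gf (B (y :: f)) = gf (B (y :: f'))) ∧
        ∀ f, ∃ v ∈ B (y :: f), v.count y = d y - 1) := by
  choose N hN using hT
  have hos : (1 - ∑ x : α, (MvPolynomial.X x : MvPolynomial α ℤ)) = os α := rfl
  have hgf' : ∀ g f, 1 - gf C = os α * ((1 - gf C) * gf (N g f) + gf (A g) * gf (B f)) := by
    intro g f
    rw [← hos]
    exact hgf α C (A g) (B f) (N g f) hC (hN g f)
  obtain ⟨Q, hQ⟩ : ∃ Q, Q = (1 - gf C) * gf (N [] []) + gf (A []) * gf (B []) := ⟨_, rfl⟩
  have hcQ : 1 - gf C = os α * Q := by rw [hQ]; exact hgf' [] []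
  -- a letter, so that `1 - s` is not zero
  by_cases hα : Nonempty α
  swap
  · exfalso
    have hem : IsEmpty α := not_nonempty_iff.1 hα
    have hfalse : ∀ p : MvPolynomial α ℤ, ∀ y : α, MvPolynomial.degreeOf y p = 0 :=
      fun p y => (hem.false y).elim
    obtain ⟨y, -⟩ := hI Q 1 (by rw [mul_one, hos]; exact hcQ)
    exact hem.false y
  obtain ⟨y0⟩ := hα
  have hos0 : os α ≠ 0 := os_ne_zero y0
  have hGF : ∀ g f, gf (A g) * gf (B f) = Q * (1 - os α * gf (N g f)) := by
    intro g f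
    have h1 := hgf' g f
    rw [hcQ] at h1
    have h2 := mul_left_cancel₀ hos0 h1
    linear_combination -h2
  have hdeg1 : ∀ y, MvPolynomial.degreeOf y (1 - gf C) = d y :=
    fun y => degreeOf_one_sub_gf (hdle y) (hdex y) (hd1 y)
  have hQ0 : Q ≠ 0 := by
    intro h
    have h1 := hdeg1 y0
    have h2 := hd1 y0
    rw [hcQ, h, mul_zero] at h1
    simp at h1
    omega
  have hQd : ∀ y, MvPolynomial.degreeOf y Q = d y - 1 := by
    intro y
    have h1 := hdeg1 y
    rw [hcQ, MvPolynomial.degreeOf_mul_eq hos0 hQ0, degreeOf_os] at h1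
    omega
  have hprod : ∀ g f, gf (A g) * gf (B f) ≠ 0 := by
    intro g f h
    rw [hGF g f] at h
    have h1 := (mul_eq_zero.1 h).resolve_left hQ0
    have h2 := congrArg (ev α) h1
    rw [map_sub, map_one, map_mul, ev_os y0, zero_mul, map_zero, sub_zero] at h2
    exact one_ne_zero h2
  have hgf0 : gf (∅ : Finset (List α)) = 0 := by unfold gf; simp
  have hA : ∀ g, (A g).Nonempty := by
    intro g
    rw [Finset.nonempty_iff_ne_empty]
    intro h
    apply hprod g []
    rw [h, hgf0, zero_mul]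
  have hB : ∀ f, (B f).Nonempty := by
    intro f
    rw [Finset.nonempty_iff_ne_empty]
    intro h
    apply hprod [] f
    rw [h, hgf0, mul_zero]
  obtain ⟨F, G, hFG, hFA, hGB⟩ := split Q hQ0 (fun g => gf (A g)) (fun f => gf (B f))
    (fun g f => ⟨_, hGF g f⟩)
  have hF0 : F ≠ 0 := by
    rintro rfl
    rw [zero_mul] at hFG
    exact hQ0 hFG
  have hG0 : G ≠ 0 := by
    rintro rfl
    rw [mul_zero] at hFG
    exact hQ0 hFG
  obtain ⟨y, hy⟩ := hI F G (by rw [hos, ← hFG]; exact hcQ)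
  have hsum : MvPolynomial.degreeOf y F + MvPolynomial.degreeOf y G = d y - 1 := by
    rw [← MvPolynomial.degreeOf_mul_eq hF0 hG0, ← hFG]
    exact hQd y
  refine ⟨y, ?_⟩
  rcases hy with hy | hy
  · right
    have h := side2 y hF0 hG0 (by omega) (A []) (fun f => B (y :: f))
      (fun f => gf (N [] (y :: f))) (fun f => hB _) (fun f => hB1 y f)
      (fun f => by rw [← hFG]; exact hGF [] (y :: f)) (hFA []) (fun f => hGB _)
    exact h
  · left
    have h := side2 y hG0 hF0 (by omega) (B []) (fun g => A (g ++ [y]))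
      (fun g => gf (N (g ++ [y]) [])) (fun g => hA _) (fun g => hA1 y g)
      (fun g => by rw [mul_comm, mul_comm G F, ← hFG]; exact hGF (g ++ [y]) []) (hGB [])
      (fun g => hFA _)
    exact h

end Pool.Agent.H72.OF
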